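import Pool.Agent.H705.TR.Stm

/-! # The gcd recursion: induction over the levels -/

set_option autoImplicit false

namespace Pool.Agent.H163.TR

open Pool.Agent.H705.TR

theorem T_LNK (hNXT : P_NXT) : P_LNK := by
  intro z L Q K
  induction K with
  | zero =>
    intro n c x _ h
    exact h.elim
  | succ K ih =>
    intro n c x hok hR
    obtain ⟨W, hW⟩ : ∃ W : ℕ, W = 3 * z + 1 := ⟨_, rfl⟩
    obtain ⟨T, hT⟩ : ∃ T : ℕ, T = n + (K + 1) * (3 * z + 1) := ⟨_, rfl⟩
    have hT' : T = n + (K * W + W) := by rw [hT, hW]; ring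
    have hok1 := hok.1
    have hok2 := hok.2
    rw [← hT] at hok2
    rcases hR with ⟨h1, h2⟩ | ⟨h1, h2⟩
    · refine ⟨n, c, hok1, Nat.le_add_right _ _, le_rfl, Nat.le_add_right _ _, ?_, rfl, h1, h2⟩
      have h3 : 0 ≤ (K + 1) * (T + 4) := Nat.zero_le _
      omega
    · obtain ⟨a1, a2, a3, a4, a5⟩ := hNXT z L K n c (x c) hok h1
      obtain ⟨n', c', b1, b2, b3, b4, b5, b6, b7, b8⟩ := ih _ _ x a1 h2
      rw [← hW] at a2 b2 b4
      have h3 : (nxt n c (x c)).1 + K * W ≤ T := by omega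
      have h4 : K * ((nxt n c (x c)).1 + K * W + 4) ≤ K * (T + 4) :=
        Nat.mul_le_mul_left _ (by omega)
      refine ⟨n', c', b1, ?_, by omega, ?_, b5, (a5 x rfl).trans b6, b7, b8⟩
      · rw [← hT]
        exact b2.trans h3
      · rw [← hT, Nat.succ_mul]
        omega

end Pool.Agent.H163.TR
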