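import Pool.Agent.H705.TR.Stm

/-! # The gcd recursion: one level which is not rough -/

set_option autoImplicit false

namespace Pool.Agent.H163.TR

open Pool.Agent.H705.TR

theorem T_NXT (hFLB : P_FLB) (hJMP : P_JMP) : P_NXT := by
  intro z L K n c y hok hR
  obtain ⟨-, -, -, hrun⟩ := hFLB
  unfold R at hR
  push Not at hR
  obtain ⟨p, hp, hpz, β, hβ, hpc, hdvd⟩ := hR
  obtain ⟨W, hW⟩ : ∃ W : ℕ, W = 3 * z + 1 := ⟨_, rfl⟩
  obtain ⟨T, hT⟩ : ∃ T : ℕ, T = n + (K + 1) * (3 * z + 1) := ⟨_, rfl⟩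
  have hT' : T = n + (K * W + W) := by rw [hT, hW]; ring
  have hok1 := hok.1
  have hok2 := hok.2
  rw [← hT, Nat.succ_mul] at hok2
  have hc9 : 9 ≤ c := by omega
  obtain ⟨j1, j2, j3, j4, j5, -⟩ := hJMP c y n p β hok1 hc9 hp hβ hpc hdvd
  obtain ⟨m, hm⟩ : ∃ m : ℕ, m = jm n c y := ⟨_, rfl⟩
  have hn1 : (nxt n c y).1 = m + 1 := by rw [hm]; rfl
  have hn2 : (nxt n c y).2 = min (c - 1) (c + 1 - G c m y) := by rw [hm]; rfl
  rw [← hm] at j1 j2 j3 j4 j5
  obtain ⟨g, hg⟩ : ∃ g : ℕ, g = G c m y := ⟨_, rfl⟩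
  have hmz : m < n + 3 * z := by omega
  have hn2' : (nxt n c y).2 = c + 1 - g := by
    rw [hn2, ← hg]
    rw [← hg] at j4
    omega
  rw [hn1, hn2']
  rw [← hg] at j4 j5
  refine ⟨⟨by omega, ?_⟩, by omega, by omega, by omega, ?_⟩
  · rw [← hW]
    have h3 : m + 1 + K * W ≤ T := by omega
    have h4 : K * (m + 1 + K * W + 4) ≤ K * (T + 4) := Nat.mul_le_mul_left _ (by omega)
    omega
  · intro x hx
    have h1 : fl x n c = fl x (n + (m - n)) c := by
      apply hrun x n c (m - n) (by omega)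
      intro i hi
      rw [hx]
      exact j3 (n + i) (by omega) (by omega)
    have h2 : n + (m - n) = m := by omega
    rw [h1, h2, fl, dif_neg (by omega), hx, ← hg]
    congr 1
    omega

end Pool.Agent.H163.TR
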